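import Pool.Agent.Run7.h242.SC.Iface

/-! Piece CPT of project SC (helper242, MP_a6162f_an). -/

set_option autoImplicit false

namespace Pool.Agent.Run7.h888.SC

open MeasureTheory Set Filter Topology Metric
open scoped ContDiff ENNReal NNReal
open Run7.h242.SC

theorem t_CPT : S_CPT := by
  intro n Ω C B F hΩ hL hB
  classical
  rcases Ω.eq_empty_or_nonempty with hem | hne
  · subst hem
    refine ⟨id, fun _ => 0, strictMono_id, fun x hx => absurd hx (Set.notMem_empty x), ?_⟩
    intro x r _
    exact LipschitzWith.lipschitzOnWith (LipschitzWith.const' 0)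
  haveI : Nonempty Ω := hne.to_subtype
  set d : ℕ → Ω := TopologicalSpace.denseSeq Ω with hd
  have hdd : DenseRange d := TopologicalSpace.denseRange_denseSeq Ω
  have hcomp : IsCompact (Set.pi Set.univ fun _ : ℕ => closedBall (0 : E n) B) :=
    isCompact_univ_pi fun _ => isCompact_closedBall _ _
  obtain ⟨a, -, σ, hσ, hlim⟩ := hcomp.tendsto_subseq (x := fun k i => F k (d i)) (fun k => by
    intro i _
    rw [mem_closedBall_zero_iff]
    exact hB k _ (d i).2)
  have hlim2 : ∀ i, Tendsto (fun k => F (σ k) (d i)) atTop (𝓝 (a i)) := by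
    intro i
    exact (tendsto_pi_nhds.mp hlim) i
  have hcau : ∀ x ∈ Ω, CauchySeq fun k => F (σ k) x := by
    intro x hx
    rw [Metric.cauchySeq_iff]
    intro ε hε
    obtain ⟨r, hr, hball⟩ := Metric.isOpen_iff.mp hΩ x hx
    set δ : ℝ := min r (ε / (3 * (C + 1))) with hδ
    have hC0 : (0 : ℝ) ≤ C := C.2
    have hδ0 : 0 < δ := lt_min hr (by positivity)
    obtain ⟨i, hi⟩ := hdd.exists_dist_lt (⟨x, hx⟩ : Ω) hδ0
    have hi2 : dist x (d i : E n) < δ := hi
    have hdi : (d i : E n) ∈ ball x r := by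
      rw [mem_ball, dist_comm]
      exact hi2.trans_le (min_le_left _ _)
    have hxx : x ∈ ball x r := mem_ball_self hr
    have hclose : ∀ k, dist (F k x) (F k (d i)) ≤ ε / 3 := by
      intro k
      have h1 := (hL k x r hball).dist_le_mul x hxx _ hdi
      have h2 : dist x (d i : E n) ≤ ε / (3 * (C + 1)) := (hi2.trans_le (min_le_right _ _)).le
      have h3 : (C : ℝ) * dist x (d i : E n) ≤ (C + 1) * (ε / (3 * (C + 1))) :=
        mul_le_mul (by linarith) h2 dist_nonneg (by positivity)
      have h4 : ((C : ℝ) + 1) * (ε / (3 * (C + 1))) = ε / 3 := by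
        field_simp
      linarith
    obtain ⟨N, hN⟩ := (Metric.cauchySeq_iff.mp (hlim2 i).cauchySeq) (ε / 3) (by linarith)
    refine ⟨N, fun k hk l hl => ?_⟩
    have h1 := hclose (σ k)
    have h2 := hclose (σ l)
    have h3 := hN k hk l hl
    calc dist (F (σ k) x) (F (σ l) x)
        ≤ dist (F (σ k) x) (F (σ k) (d i)) + dist (F (σ k) (d i)) (F (σ l) (d i))
          + dist (F (σ l) (d i)) (F (σ l) x) := dist_triangle4 _ _ _ _
      _ < ε := by
          rw [dist_comm (F (σ l) (d i))]
          linarith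
  choose! f hf using fun x hx => cauchySeq_tendsto_of_complete (hcau x hx)
  refine ⟨σ, f, hσ, hf, ?_⟩
  intro x r hball
  apply LipschitzOnWith.of_dist_le_mul
  intro y hy z hz
  refine le_of_tendsto ((hf y (hball hy)).dist (hf z (hball hz))) (Eventually.of_forall fun k => ?_)
  exact (hL (σ k) x r hball).dist_le_mul y hy z hz

end Pool.Agent.Run7.h888.SC
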