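import Pool.Agent.Run7.h242.SC.Iface

/-! Piece GAMD of project SC (helper242, MP_a6162f_an). -/

set_option autoImplicit false

namespace Pool.Agent.Run7.h888.SC

open MeasureTheory Set Filter Topology Metric
open scoped ContDiff ENNReal NNReal
open Run7.h242.SC

lemma cc_big {v y : ℝ} (hv : 0 < v) (hv' : v ≤ 1 / 32) (hy : v ≤ y) : cc v y = v ^ 2 := by
  unfold cc
  apply max_eq_left
  refine (min_le_right _ _).trans ?_
  nlinarith

lemma tt_small {v y : ℝ} (hy : y ≤ 3 * v) : tt v y = 0 := max_eq_right (by linarith)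

lemma tt_large {v y : ℝ} (hy : 3 * v ≤ y) : tt v y = y - 3 * v := max_eq_left (by linarith)

lemma Gam_re (v : ℝ) (c0 : ℂ) (p : ℂ × ℝ) : (Gam v c0 p).1.re
    = c0.re + (-v + (v + cc v p.2 * p.1.re) * Real.cos (tt v p.2 / v)) := by
  simp [Gam]

lemma Gam_im (v : ℝ) (c0 : ℂ) (p : ℂ × ℝ) : (Gam v c0 p).1.im
    = c0.im + (cc v p.2 * p.1.im + v * tt v p.2) := by
  simp [Gam]

lemma Gam_snd (v : ℝ) (c0 : ℂ) (p : ℂ × ℝ) : (Gam v c0 p).2
    = min p.2 (3 * v) + (v + cc v p.2 * p.1.re) * Real.sin (tt v p.2 / v) := rfl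

lemma pi_sq_le : Real.pi ^ 2 ≤ 10 := by
  have h1 := Real.pi_lt_d2
  have h2 := Real.pi_pos
  nlinarith

/-- both points on the helix -/
lemma helix {v θ θ' a a' b b' D : ℝ} (hv : 0 < v) (hv' : v ≤ 1 / 32) (ha : |a| ≤ 1) (ha' : |a'| ≤ 1)
    (hb : |b| ≤ 1) (hb' : |b'| ≤ 1)
    (h1 : |(v + v ^ 2 * a) * Real.cos θ - (v + v ^ 2 * a') * Real.cos θ'| ≤ D)
    (h2 : |(v + v ^ 2 * a) * Real.sin θ - (v + v ^ 2 * a') * Real.sin θ'| ≤ D)
    (h3 : |v ^ 2 * (b - b') + v ^ 2 * (θ - θ')| ≤ D) (hD : D ≤ v ^ 2) :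
    v * |θ - θ'| ≤ 4 * D := by
  obtain ⟨a1, a2⟩ := abs_le.mp ha
  obtain ⟨a3, a4⟩ := abs_le.mp ha'
  obtain ⟨b1, b2⟩ := abs_le.mp hb
  obtain ⟨b3, b4⟩ := abs_le.mp hb'
  have hv2 : 0 < v ^ 2 := by positivity
  have hD0 : 0 ≤ D := (abs_nonneg _).trans h1
  set φ := θ - θ' with hφ
  have hφ3 : |φ| ≤ 3 := by
    obtain ⟨c1, c2⟩ := abs_le.mp h3
    rw [abs_le]
    constructor
    · by_contra hcon
      push Not at hcon
      nlinarith
    · by_contra hcon
      push Not at hcon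
      nlinarith
  have hcos : Real.cos φ ≤ 1 - 2 / Real.pi ^ 2 * φ ^ 2 :=
    Real.cos_le_one_sub_mul_cos_sq (hφ3.trans Real.pi_gt_three.le)
  have hpi : 1 / 5 ≤ 2 / Real.pi ^ 2 := by
    rw [div_le_div_iff₀ (by norm_num) (by positivity)]
    linarith [pi_sq_le]
  have hcos2 : Real.cos φ ≤ 1 - 1 / 5 * φ ^ 2 := by nlinarith [sq_nonneg φ]
  set r := v + v ^ 2 * a with hr
  set r' := v + v ^ 2 * a' with hr'
  have hrl : 31 / 32 * v ≤ r := by nlinarith
  have hrl' : 31 / 32 * v ≤ r' := by nlinarith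
  have hid : (r * Real.cos θ - r' * Real.cos θ') ^ 2 + (r * Real.sin θ - r' * Real.sin θ') ^ 2
      = (r - r') ^ 2 + 2 * (r * r') * (1 - Real.cos φ) := by
    rw [hφ, Real.cos_sub]
    have e1 := Real.sin_sq_add_cos_sq θ
    have e2 := Real.sin_sq_add_cos_sq θ'
    linear_combination r ^ 2 * e1 + r' ^ 2 * e2
  have hX : (r * Real.cos θ - r' * Real.cos θ') ^ 2 ≤ D ^ 2 := sq_le_sq' (abs_le.mp h1).1 (abs_le.mp h1).2
  have hY : (r * Real.sin θ - r' * Real.sin θ') ^ 2 ≤ D ^ 2 := sq_le_sq' (abs_le.mp h2).1 (abs_le.mp h2).2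
  have hrr : (31 / 32 * v) * (31 / 32 * v) ≤ r * r' :=
    mul_le_mul hrl hrl' (by positivity) (by linarith [show 0 ≤ 31 / 32 * v by positivity])
  have hkey : 2 * ((31 / 32 * v) * (31 / 32 * v)) * (1 / 5 * φ ^ 2) ≤ 2 * (r * r') * (1 - Real.cos φ) := by
    apply mul_le_mul (by linarith) (by linarith) (by positivity)
    have : 0 ≤ (31 / 32 * v) * (31 / 32 * v) := by positivity
    linarith
  have hfin : (v * |φ|) ^ 2 ≤ (4 * D) ^ 2 := by
    rw [mul_pow, sq_abs]
    nlinarith [sq_nonneg (r - r'), sq_nonneg (v * φ)]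
  exact (pow_le_pow_iff_left₀ (by positivity) (by positivity) two_ne_zero).1 hfin

/-- first point straight, second point on the helix -/
lemma mixed {v y θ a a' b b' D : ℝ} (hv : 0 < v) (hv' : v ≤ 1 / 32) (ha : |a| ≤ 1) (ha' : |a'| ≤ 1)
    (hb : |b| ≤ 1) (hb' : |b'| ≤ 1) (hy : y ≤ 3 * v) (hθ : 0 < θ)
    (h1 : |cc v y * a - (-v + (v + v ^ 2 * a') * Real.cos θ)| ≤ D)
    (h2 : |y - (3 * v + (v + v ^ 2 * a') * Real.sin θ)| ≤ D)
    (h3 : |cc v y * b - (v ^ 2 * b' + v ^ 2 * θ)| ≤ D) (hD : D ≤ v ^ 2) :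
    v * θ + (3 * v - y) ≤ 4 * D := by
  obtain ⟨a1, a2⟩ := abs_le.mp ha
  obtain ⟨a3, a4⟩ := abs_le.mp ha'
  obtain ⟨b1, b2⟩ := abs_le.mp hb
  obtain ⟨b3, b4⟩ := abs_le.mp hb'
  have hv2 : 0 < v ^ 2 := by positivity
  have hvv : v ^ 2 ≤ 1 / 32 * v := by nlinarith
  set r := v + v ^ 2 * a' with hr
  have hrl : 31 / 32 * v ≤ r := by nlinarith
  have hru : r ≤ 33 / 32 * v := by nlinarith
  have hr0 : 0 < r := by linarith [show 0 < 31 / 32 * v by positivity]
  obtain ⟨c1, c2⟩ := abs_le.mp h2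
  have hs1 : -1 ≤ Real.sin θ := Real.neg_one_le_sin θ
  have hyv : v ≤ y := by nlinarith
  rw [cc_big hv hv' hyv] at h1 h3
  obtain ⟨d1, d2⟩ := abs_le.mp h3
  have hθ3 : θ ≤ 3 := by
    by_contra hcon
    push Not at hcon
    nlinarith
  obtain ⟨e1, e2⟩ := abs_le.mp h1
  have hrc : v - 2 * v ^ 2 ≤ r * Real.cos θ := by nlinarith
  have hcpos : 0 < Real.cos θ := by
    by_contra hcon
    push Not at hcon
    nlinarith
  have hθpi : θ ≤ Real.pi / 2 := by
    by_contra hcon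
    push Not at hcon
    have := Real.cos_nonpos_of_pi_div_two_le_of_le hcon.le (by linarith [Real.pi_gt_three])
    linarith
  have hsin : 2 / Real.pi * θ ≤ Real.sin θ := Real.mul_le_sin hθ.le hθpi
  have hpi : 1 / 2 ≤ 2 / Real.pi := by
    rw [div_le_div_iff₀ (by norm_num) Real.pi_pos]
    linarith [Real.pi_le_four]
  have hsin2 : 1 / 2 * θ ≤ Real.sin θ := by nlinarith
  have h5 : (31 / 32 * v) * (1 / 2 * θ) ≤ r * Real.sin θ :=
    mul_le_mul hrl hsin2 (by positivity) hr0.le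
  have h6 : 0 < v * θ := by positivity
  linarith

lemma gam_half {v : ℝ} (hv : 0 < v) (hv' : v ≤ 1 / 32) (c0 : ℂ) {p p' : ℂ × ℝ} (hp : p ∈ Cube)
    (hp' : p' ∈ Cube) (hD : ‖Gam v c0 p - Gam v c0 p'‖ ≤ v ^ 2) (hle : p.2 ≤ p'.2) :
    |p.2 - p'.2| ≤ 4 * ‖Gam v c0 p - Gam v c0 p'‖ := by
  set D := ‖Gam v c0 p - Gam v c0 p'‖ with hDdef
  have hD0 : 0 ≤ D := norm_nonneg _
  have hre : |(Gam v c0 p).1.re - (Gam v c0 p').1.re| ≤ D := by
    have h1 := Complex.abs_re_le_norm (Gam v c0 p - Gam v c0 p').1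
    have h2 := norm_fst_le (Gam v c0 p - Gam v c0 p')
    have h3 : (Gam v c0 p - Gam v c0 p').1.re = (Gam v c0 p).1.re - (Gam v c0 p').1.re := rfl
    rw [h3] at h1
    exact h1.trans h2
  have him : |(Gam v c0 p).1.im - (Gam v c0 p').1.im| ≤ D := by
    have h1 := Complex.abs_im_le_norm (Gam v c0 p - Gam v c0 p').1
    have h2 := norm_fst_le (Gam v c0 p - Gam v c0 p')
    have h3 : (Gam v c0 p - Gam v c0 p').1.im = (Gam v c0 p).1.im - (Gam v c0 p').1.im := rfl
    rw [h3] at h1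
    exact h1.trans h2
  have hsn : |(Gam v c0 p).2 - (Gam v c0 p').2| ≤ D := by
    have h2 := norm_snd_le (Gam v c0 p - Gam v c0 p')
    exact h2
  rw [Gam_re, Gam_re] at hre
  rw [Gam_im, Gam_im] at him
  rw [Gam_snd, Gam_snd] at hsn
  obtain ⟨pa, pb, -, -⟩ := hp
  obtain ⟨pa', pb', -, -⟩ := hp'
  rcases le_total p'.2 (3 * v) with h1 | h1
  · -- both straight
    have h2 : p.2 ≤ 3 * v := hle.trans h1
    rw [tt_small h1, tt_small h2, zero_div, Real.sin_zero, min_eq_left h1, min_eq_left h2] at hsn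
    have h3 : |p.2 - p'.2| ≤ D := by
      have e : p.2 + (v + cc v p.2 * p.1.re) * 0 - (p'.2 + (v + cc v p'.2 * p'.1.re) * 0)
          = p.2 - p'.2 := by ring
      rw [e] at hsn
      exact hsn
    linarith
  rcases le_total (3 * v) p.2 with h2 | h2
  · -- both on the helix
    rw [tt_large h1, tt_large h2, cc_big hv hv' (by linarith : v ≤ p.2),
      cc_big hv hv' (by linarith : v ≤ p'.2)] at hre him
    rw [tt_large h1, tt_large h2, cc_big hv hv' (by linarith : v ≤ p.2),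
      cc_big hv hv' (by linarith : v ≤ p'.2), min_eq_right h1, min_eq_right h2] at hsn
    have h3 := helix (v := v) (θ := (p.2 - 3 * v) / v) (θ' := (p'.2 - 3 * v) / v) (a := p.1.re)
      (a' := p'.1.re) (b := p.1.im) (b' := p'.1.im) (D := D) hv hv' pa pa' pb pb'
      (by
        refine le_of_eq_of_le ?_ hre
        congr 1
        ring)
      (by
        refine le_of_eq_of_le ?_ hsn
        congr 1
        ring)
      (by
        refine le_of_eq_of_le ?_ him
        congr 1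
        field_simp
        ring) hD
    have h4 : v * |(p.2 - 3 * v) / v - (p'.2 - 3 * v) / v| = |p.2 - p'.2| := by
      rw [← sub_div, abs_div, abs_of_pos hv, mul_div_cancel₀ _ hv.ne']
      congr 1
      ring
    rw [h4] at h3
    exact h3
  · -- mixed
    rcases h1.eq_or_lt with h1' | h1'
    · -- p'.2 = 3 v
      have h1e : p'.2 ≤ 3 * v := h1'.symm.le
      rw [tt_small h1e, tt_small h2, zero_div, Real.sin_zero, min_eq_left h1e, min_eq_left h2] at hsn
      have h3 : |p.2 - p'.2| ≤ D := by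
        have e : p.2 + (v + cc v p.2 * p.1.re) * 0 - (p'.2 + (v + cc v p'.2 * p'.1.re) * 0)
            = p.2 - p'.2 := by ring
        rw [e] at hsn
        exact hsn
      linarith
    rw [tt_large h1, tt_small h2, cc_big hv hv' (by linarith : v ≤ p'.2), zero_div,
      Real.cos_zero] at hre
    rw [tt_large h1, tt_small h2, cc_big hv hv' (by linarith : v ≤ p'.2)] at him
    rw [tt_large h1, tt_small h2, cc_big hv hv' (by linarith : v ≤ p'.2), zero_div,
      Real.sin_zero, min_eq_right h1, min_eq_left h2] at hsn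
    have h3 := mixed (v := v) (y := p.2) (θ := (p'.2 - 3 * v) / v) (a := p.1.re)
      (a' := p'.1.re) (b := p.1.im) (b' := p'.1.im) (D := D) hv hv' pa pa' pb pb' h2
      (div_pos (by linarith) hv)
      (by
        refine le_of_eq_of_le ?_ hre
        congr 1
        ring)
      (by
        refine le_of_eq_of_le ?_ hsn
        congr 1
        ring)
      (by
        refine le_of_eq_of_le ?_ him
        congr 1
        field_simp
        ring) hD
    have h4 : v * ((p'.2 - 3 * v) / v) = p'.2 - 3 * v := mul_div_cancel₀ _ hv.ne'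
    rw [h4] at h3
    rw [abs_of_nonpos (by linarith)]
    linarith

theorem t_GAMD : S_GAMD := by
  intro v hv hv' c0 p hp p' hp' hD
  rcases le_total p.2 p'.2 with h | h
  · exact gam_half hv hv' c0 hp hp' hD h
  · rw [norm_sub_rev] at hD
    rw [norm_sub_rev, abs_sub_comm]
    exact gam_half hv hv' c0 hp' hp hD h

end Pool.Agent.Run7.h888.SC
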