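import Pool.Agent.Run7.h242.SC.Iface

/-! Piece LOOP of project SC (helper242, MP_a6162f_an). -/

set_option autoImplicit false

namespace Pool.Agent.Run7.h888.SC

open MeasureTheory Set Filter Topology Metric
open scoped ContDiff ENNReal NNReal
open Run7.h242.SC

lemma cl_nonneg (s : ℝ) : 0 ≤ cl s := le_max_left _ _

lemma cl_le_one (s : ℝ) : cl s ≤ 1 := max_le zero_le_one (min_le_right _ _)

lemma cl_zero {s : ℝ} (h : s ≤ 0) : cl s = 0 := by
  unfold cl
  rw [min_eq_left (by linarith), max_eq_left h]

lemma cl_one {s : ℝ} (h : 1 ≤ s) : cl s = 1 := by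
  unfold cl
  rw [min_eq_right h]
  norm_num

lemma continuous_cl : Continuous cl := by
  unfold cl
  fun_prop

lemma cl_mono {s t : ℝ} (h : s ≤ t) : cl s ≤ cl t := by
  unfold cl
  exact max_le_max le_rfl (min_le_min h le_rfl)

lemma rp_re (a b c d t : ℝ) : (rp a b c d t).re = a + (b - a) * (cl (4 * t) - cl (4 * t - 2)) := rfl

lemma rp_im (a b c d t : ℝ) : (rp a b c d t).im = c + (d - c) * (cl (4 * t - 1) - cl (4 * t - 3)) :=
  rfl

lemma loop_zero {m : ℕ} (τ : E (m + 3)) (t : ℝ) :
    loopPt τ t 0 = -1 + (rp (-3 / 128) (3 / 128) (-1 / 4) (1 / 4) t).re + τ 0 := by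
  simp [loopPt]

lemma loop_one {m : ℕ} (τ : E (m + 3)) (t : ℝ) : loopPt τ t 1 = τ 1 := by
  simp [loopPt, ne21.symm]

lemma loop_two {m : ℕ} (τ : E (m + 3)) (t : ℝ) :
    loopPt τ t 2 = 5 / 8 + (rp (-3 / 128) (3 / 128) (-1 / 4) (1 / 4) t).im + τ 2 := by
  simp [loopPt, ne20]

lemma loop_ge {m : ℕ} (τ : E (m + 3)) (t : ℝ) {i : Fin (m + 3)} (hi : 3 ≤ (i : ℕ)) :
    loopPt τ t i = 1 / 2 + τ i := by
  obtain ⟨h0, h1, h2⟩ := ne_of_three_le hi
  simp [loopPt, h0, h1, h2]

lemma re_bounds (t : ℝ) : -3 / 128 ≤ (rp (-3 / 128) (3 / 128) (-1 / 4) (1 / 4) t).re ∧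
    (rp (-3 / 128) (3 / 128) (-1 / 4) (1 / 4) t).re ≤ 3 / 128 := by
  rw [rp_re]
  have h1 := cl_le_one (4 * t)
  have h2 := cl_nonneg (4 * t - 2)
  have h3 : cl (4 * t - 2) ≤ cl (4 * t) := cl_mono (by linarith)
  constructor <;> linarith

lemma im_bounds (t : ℝ) : -1 / 4 ≤ (rp (-3 / 128) (3 / 128) (-1 / 4) (1 / 4) t).im ∧
    (rp (-3 / 128) (3 / 128) (-1 / 4) (1 / 4) t).im ≤ 1 / 4 := by
  rw [rp_im]
  have h1 := cl_le_one (4 * t - 1)
  have h2 := cl_nonneg (4 * t - 3)
  have h3 : cl (4 * t - 3) ≤ cl (4 * t - 1) := cl_mono (by linarith)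
  constructor <;> linarith

/-- on each side one coordinate is extremal -/
lemma side (t : ℝ) : (rp (-3 / 128) (3 / 128) (-1 / 4) (1 / 4) t).im = -1 / 4 ∨
    (rp (-3 / 128) (3 / 128) (-1 / 4) (1 / 4) t).re = 3 / 128 ∨
    (rp (-3 / 128) (3 / 128) (-1 / 4) (1 / 4) t).im = 1 / 4 ∨
    (rp (-3 / 128) (3 / 128) (-1 / 4) (1 / 4) t).re = -3 / 128 := by
  rw [rp_re, rp_im]
  rcases le_total t (1 / 4) with h1 | h1
  · left
    rw [cl_zero (by linarith), cl_zero (by linarith)]
    ring
  rcases le_total t (1 / 2) with h2 | h2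
  · right; left
    rw [cl_one (by linarith), cl_zero (by linarith)]
    ring
  rcases le_total t (3 / 4) with h3 | h3
  · right; right; left
    rw [cl_one (s := 4 * t - 1) (by linarith), cl_zero (s := 4 * t - 3) (by linarith)]
    ring
  · right; right; right
    rw [cl_one (by linarith), cl_one (by linarith)]
    ring

theorem t_LOOP : S_LOOP := by
  intro m
  refine ⟨?_, ?_⟩
  · intro x hx h0
    have hre : x 0 = -1 := by
      have := congrArg Complex.re h0
      simp only [Complex.zero_re] at this
      linarith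
    have him : x 2 = 5 / 8 := by
      have := congrArg Complex.im h0
      simp only [Complex.zero_im] at this
      linarith
    rcases hx.2 with h1 | h1
    · have h2 : (pr x).2 < 0 := h1.2.2
      rw [pr_snd, him] at h2
      norm_num at h2
    · obtain ⟨j, hj⟩ := Set.mem_iUnion.mp h1
      obtain ⟨p, hp, hpx⟩ := hj
      have e1 := congrArg (fun w : ℂ × ℝ => w.1.re) hpx
      have e2 := congrArg (fun w : ℂ × ℝ => w.2) hpx
      simp only [pr_re, pr_snd, hre, him] at e1 e2
      have e3 : (Q j).re + V j * p.1.re = -1 := by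
        have h3 : (Sig j p).1.re = (Q j).re + V j * p.1.re := by
          simp [Sig]
        rw [h3] at e1
        exact e1
      have e4 : p.2 = 5 / 8 := e2
      rcases Nat.eq_zero_or_pos j with hj0 | hj0
      · subst hj0
        have h4 : (Q 0).re = -1 := by simp [Q]
        have h5 : V 0 = 1 / 32 := by simp [V]
        rw [h4, h5] at e3
        have h6 : p.1.re = 0 := by linarith
        apply hp.2.2.2.2
        rw [h6, e4]
        norm_num
      · have h4 : (Q j).re = (1 / 2) ^ j := by
          have : j ≠ 0 := by omega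
          simp only [Q, this, if_false, q, Complex.ofReal_re]
        have h5 : V j = (1 / 2) ^ j / 32 := rfl
        have h6 := (abs_lt.mp hp.1).1
        have h7 : (0 : ℝ) < (1 / 2) ^ j := by positivity
        rw [h4, h5] at e3
        nlinarith
  · intro τ hτ
    have t0 := abs_le.mp (hτ 0)
    have t1 := abs_le.mp (hτ 1)
    have t2 := abs_le.mp (hτ 2)
    refine ⟨?_, ?_, ?_⟩
    · intro t _
      have hr := re_bounds t
      have hi := im_bounds t
      have hs := side t
      have x0 := loop_zero τ t
      have x1 := loop_one τ t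
      have x2 := loop_two τ t
      set u := (rp (-3 / 128) (3 / 128) (-1 / 4) (1 / 4) t).re with hu
      set w := (rp (-3 / 128) (3 / 128) (-1 / 4) (1 / 4) t).im with hw
      refine ⟨⟨?_, ?_⟩, ?_, ?_⟩
      · intro i hi3
        rw [loop_ge τ t hi3]
        have ti := abs_le.mp (hτ i)
        constructor <;> linarith [ti.1, ti.2]
      · right
        refine Set.mem_iUnion.mpr ⟨0, (⟨32 * (u + τ 0), 32 * τ 1⟩, 5 / 8 + w + τ 2), ?_, ?_⟩
        · refine ⟨?_, ?_, ?_, ?_, ?_⟩
          · show |32 * (u + τ 0)| < 1
            rw [abs_lt]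
            constructor <;> linarith [t0.1, t0.2, hr.1, hr.2]
          · show |32 * τ 1| < 1
            rw [abs_lt]
            constructor <;> linarith [t1.1, t1.2]
          · show -1 < 5 / 8 + w + τ 2
            linarith [t2.1, hi.1]
          · show 5 / 8 + w + τ 2 < 1
            linarith [t2.2, hi.2]
          · rintro ⟨c1, c2, c3⟩
            change |32 * (u + τ 0)| ≤ 1 / 2 at c1
            change 1 / 2 ≤ 5 / 8 + w + τ 2 at c2
            change 5 / 8 + w + τ 2 ≤ 3 / 4 at c3
            have c4 := abs_le.mp c1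
            rcases hs with h | h | h | h
            · linarith [t2.2]
            · linarith [t0.1, c4.2]
            · linarith [t2.1]
            · linarith [t0.2, c4.1]
        · refine Prod.ext (Complex.ext ?_ ?_) ?_
          · show (Sig 0 (⟨32 * (u + τ 0), 32 * τ 1⟩, 5 / 8 + w + τ 2)).1.re = loopPt τ t 0
            rw [x0]
            simp [Sig, Q, V]
            ring
          · show (Sig 0 (⟨32 * (u + τ 0), 32 * τ 1⟩, 5 / 8 + w + τ 2)).1.im = loopPt τ t 1
            rw [x1]
            simp [Sig, Q, V]
          · show 5 / 8 + w + τ 2 = loopPt τ t 2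
            rw [x2]
      · rw [x2]
        linarith [t2.1, hi.1]
      · rw [x0]
        linarith [t0.2, hr.2]
    · unfold loopPt
      refine (PiLp.continuous_toLp 2 _).comp (continuous_pi fun i => ?_)
      have c1 : Continuous fun t : ℝ => (rp (-3 / 128) (3 / 128) (-1 / 4) (1 / 4) t).re := by
        simp only [rp_re]
        have h1 : Continuous fun t : ℝ => cl (4 * t) := continuous_cl.comp (by fun_prop)
        have h2 : Continuous fun t : ℝ => cl (4 * t - 2) := continuous_cl.comp (by fun_prop)
        exact continuous_const.add (continuous_const.mul (h1.sub h2))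
      have c2 : Continuous fun t : ℝ => (rp (-3 / 128) (3 / 128) (-1 / 4) (1 / 4) t).im := by
        simp only [rp_im]
        have h1 : Continuous fun t : ℝ => cl (4 * t - 1) := continuous_cl.comp (by fun_prop)
        have h2 : Continuous fun t : ℝ => cl (4 * t - 3) := continuous_cl.comp (by fun_prop)
        exact continuous_const.add (continuous_const.mul (h1.sub h2))
      by_cases h0 : i = 0
      · simp only [h0, if_true]
        exact (continuous_const.add c1).add continuous_const
      · by_cases h2 : i = 2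
        · simp only [h2, if_true, ne20, if_false]
          exact (continuous_const.add c2).add continuous_const
        · by_cases h1 : i = 1
          · simp only [h1, if_true, ne10, if_false, ne21.symm]
            exact continuous_const
          · simp only [h0, h1, h2, if_false]
            exact continuous_const
    · have e1 : rp (-3 / 128) (3 / 128) (-1 / 4) (1 / 4) 0 = rp (-3 / 128) (3 / 128) (-1 / 4) (1 / 4) 1 := by
        apply Complex.ext
        · rw [rp_re, rp_re, cl_zero (by norm_num), cl_zero (by norm_num), cl_one (by norm_num),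
            cl_one (by norm_num)]
          ring
        · rw [rp_im, rp_im, cl_zero (by norm_num), cl_zero (by norm_num), cl_one (by norm_num),
            cl_one (by norm_num)]
          ring
      unfold loopPt
      rw [e1]

end Pool.Agent.Run7.h888.SC
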