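import Pool.Agent.Run7.h888.SC.LOOP

/-! Piece OSC of project SC (helper242, MP_a6162f_an). -/

set_option autoImplicit false

namespace Pool.Agent.Run7.h888.SC

open MeasureTheory Set Filter Topology Metric
open scoped ContDiff ENNReal NNReal
open Run7.h242.SC

lemma cont_cx {m : ℕ} : Continuous fun x : E (m + 3) => (⟨x 0 + 1, x 2 - 5 / 8⟩ : ℂ) := by
  have h0 : Continuous (fun x : E (m + 3) => x 0) := by fun_prop
  have h2 : Continuous (fun x : E (m + 3) => x 2) := by fun_prop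
  have h3 : (fun x : E (m + 3) => (⟨x 0 + 1, x 2 - 5 / 8⟩ : ℂ))
      = fun x => (((x 0 + 1 : ℝ)) : ℂ) + ((x 2 - 5 / 8 : ℝ) : ℂ) * Complex.I := by
    funext x
    exact Complex.ext (by simp) (by simp)
  rw [h3]
  fun_prop

theorem t_OSC (hNUA : S_NUA) (hNUB : S_NUB) (hWIND : S_WIND) (hLOOP : S_LOOP) : S_OSC := by
  intro m lev hlev e f hef τ hτ
  classical
  by_contra hcon
  push Not at hcon
  obtain ⟨hz, hloop⟩ := hLOOP m
  obtain ⟨hT, hLc, hL01⟩ := hloop τ hτ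
  have hOm : ∀ t ∈ Icc (0 : ℝ) 1, loopPt τ t ∈ Om m := fun t ht => (hT t ht).1
  -- f and its inverse
  have hfc : ContinuousOn f (Om m) := by
    rw [continuousOn_iff_continuous_restrict]
    have h1 : (Om m).domRestrict f = fun x : Om m => (e x : E (m + 3)) := by
      funext x
      exact (hef x).symm
    rw [h1]
    exact continuous_subtype_val.comp e.continuous
  have hfm : ∀ x ∈ Om m, f x ∈ Om' m := by
    intro x hx
    rw [← hef ⟨x, hx⟩]
    exact (e ⟨x, hx⟩).2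
  set g : E (m + 3) → E (m + 3) := fun w => if h : w ∈ Om' m then (e.symm ⟨w, h⟩ : E (m + 3)) else 0
    with hg
  have hgv : ∀ (w : E (m + 3)) (h : w ∈ Om' m), g w = (e.symm ⟨w, h⟩ : E (m + 3)) := by
    intro w h
    rw [hg]
    simp only [h, dif_pos]
  have hgc : ContinuousOn g (Om' m) := by
    rw [continuousOn_iff_continuous_restrict]
    have h1 : (Om' m).domRestrict g = fun w : Om' m => (e.symm w : E (m + 3)) := by
      funext w
      exact hgv w w.2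
    rw [h1]
    exact continuous_subtype_val.comp e.symm.continuous
  have hgm : ∀ w ∈ Om' m, g w ∈ Om m := by
    intro w hw
    rw [hgv w hw]
    exact (e.symm ⟨w, hw⟩).2
  have hgf : ∀ x ∈ Om m, g (f x) = x := by
    intro x hx
    have h1 : (⟨f x, hfm x hx⟩ : Om' m) = e ⟨x, hx⟩ := Subtype.ext (hef ⟨x, hx⟩).symm
    rw [hgv _ (hfm x hx), h1, e.symm_apply_apply]
  -- the path
  set γ : ℝ → ℂ × ℝ := fun t => pr (f (loopPt τ t)) with hγ
  have hflc : ContinuousOn (fun t => f (loopPt τ t)) (Icc (0 : ℝ) 1) :=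
    hfc.comp hLc.continuousOn hOm
  have hγc : ContinuousOn γ (Icc (0 : ℝ) 1) := continuous_pr.comp_continuousOn hflc
  have hγm : ∀ t ∈ Icc (0 : ℝ) 1, γ t ∈ Om3' := fun t ht => (hfm _ (hOm t ht)).2
  have hγ01 : γ 0 = γ 1 := by
    show pr (f (loopPt τ 0)) = pr (f (loopPt τ 1))
    rw [hL01]
  have hnull : NullIn Om3' γ := by
    by_cases hA : ∀ t ∈ Icc (0 : ℝ) 1, lev (γ t) < 1 / 2
    · exact hNUA lev hlev γ hγc (fun t ht => ⟨hγm t ht, hA t ht⟩) hγ01
    · push Not at hA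
      obtain ⟨t0, ht0, hl0⟩ := hA
      apply hNUB lev hlev γ hγc hγm hγ01
      by_cases hB : ∀ t ∈ Icc (0 : ℝ) 1, lev (γ t) < 3 / 4
      · left
        intro t ht
        refine ⟨?_, hB t ht⟩
        have h1 := (abs_lt.mp (hcon t ht t0 ht0)).1
        change -(1 / 4) < lev (γ t) - lev (γ t0) at h1
        linarith
      · push Not at hB
        obtain ⟨t1, ht1, hl1⟩ := hB
        right
        intro t ht
        have h1 := (abs_lt.mp (hcon t ht t1 ht1)).1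
        change -(1 / 4) < lev (γ t) - lev (γ t1) at h1
        linarith
  obtain ⟨H, hHc, hHm, hH0, hH1, hHs⟩ := hnull
  -- the homotopy in the target
  set Φ : ℝ × ℝ → E (m + 3) := fun p =>
    wi ((1 - p.1) • f (loopPt τ p.2) + p.1 • f (loopPt τ 0)) (H p) with hΦ
  have h0m : (0 : ℝ) ∈ Icc (0 : ℝ) 1 := ⟨le_rfl, zero_le_one⟩
  have hΦc : ContinuousOn Φ (Icc 0 1 ×ˢ Icc 0 1) := by
    have c1 : ContinuousOn (fun p : ℝ × ℝ => f (loopPt τ p.2)) (Icc 0 1 ×ˢ Icc 0 1) :=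
      hflc.comp continuous_snd.continuousOn (fun p hp => hp.2)
    have c2 : ContinuousOn (fun p : ℝ × ℝ => (1 - p.1) • f (loopPt τ p.2) + p.1 • f (loopPt τ 0))
        (Icc 0 1 ×ˢ Icc 0 1) := by
      have d1 : ContinuousOn (fun p : ℝ × ℝ => 1 - p.1) (Icc 0 1 ×ˢ Icc 0 1) := by fun_prop
      have d2 : ContinuousOn (fun p : ℝ × ℝ => p.1) (Icc 0 1 ×ˢ Icc 0 1) := by fun_prop
      have d3 : ContinuousOn (fun _ : ℝ × ℝ => f (loopPt τ 0)) (Icc 0 1 ×ˢ Icc 0 1) :=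
        continuousOn_const
      exact (d1.smul c1).add (d2.smul d3)
    exact continuous_wi.comp_continuousOn (c2.prodMk hHc)
  have hΦm : ∀ p ∈ Icc (0 : ℝ) 1 ×ˢ Icc (0 : ℝ) 1, Φ p ∈ Om' m := by
    intro p hp
    refine ⟨?_, ?_⟩
    · apply pas_wi
      intro i hi
      have h1 := (hfm _ (hOm p.2 hp.2)).1 i hi
      have h2 := (hfm _ (hOm 0 h0m)).1 i hi
      have h3 : ((1 - p.1) • f (loopPt τ p.2) + p.1 • f (loopPt τ 0)) i
          = (1 - p.1) * f (loopPt τ p.2) i + p.1 * f (loopPt τ 0) i := rfl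
      rw [h3]
      obtain ⟨⟨q1, q2⟩, -⟩ := hp
      constructor
      · rcases q1.eq_or_lt with h4 | h4
        · rw [← h4]
          linarith [h1.1]
        · have : 0 ≤ (1 - p.1) * f (loopPt τ p.2) i := mul_nonneg (by linarith) h1.1.le
          have : 0 < p.1 * f (loopPt τ 0) i := mul_pos h4 h2.1
          linarith
      · rcases q1.eq_or_lt with h4 | h4
        · rw [← h4]
          linarith [h1.2]
        · have e1 : (1 - p.1) * f (loopPt τ p.2) i ≤ (1 - p.1) * 1 :=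
            mul_le_mul_of_nonneg_left h1.2.le (by linarith)
          have e2 : p.1 * f (loopPt τ 0) i < p.1 * 1 := mul_lt_mul_of_pos_left h2.2 h4
          linarith
    · show pr (wi _ (H p)) ∈ Om3'
      rw [pr_wi]
      exact hHm p hp
  set G : ℝ × ℝ → ℂ := fun p => ⟨g (Φ p) 0 + 1, g (Φ p) 2 - 5 / 8⟩ with hG
  have t0 := abs_le.mp (hτ 0)
  have t2 := abs_le.mp (hτ 2)
  apply hWIND (-3 / 128 + τ 0) (3 / 128 + τ 0) (-1 / 4 + τ 2) (1 / 4 + τ 2) (by linarith [t0.2])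
    (by linarith [t0.1]) (by linarith [t2.2]) (by linarith [t2.1])
  refine ⟨G, ?_, ?_, ?_, ?_, ?_⟩
  · exact cont_cx.comp_continuousOn (hgc.comp hΦc hΦm)
  · intro p hp
    exact hz _ (hgm _ (hΦm p hp))
  · intro t ht
    have h1 : Φ (0, t) = f (loopPt τ t) := by
      show wi ((1 - (0 : ℝ)) • f (loopPt τ t) + (0 : ℝ) • f (loopPt τ 0)) (H (0, t)) = _
      rw [hH0 t ht, sub_zero, one_smul, zero_smul, add_zero]
      exact wi_pr _ _ fun i _ => rfl
    show (⟨g (Φ (0, t)) 0 + 1, g (Φ (0, t)) 2 - 5 / 8⟩ : ℂ) = _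
    rw [h1, hgf _ (hOm t ht), loop_zero, loop_two]
    apply Complex.ext
    · rw [rp_re, rp_re]
      show -1 + (-3 / 128 + (3 / 128 - -3 / 128) * (cl (4 * t) - cl (4 * t - 2))) + τ 0 + 1 = _
      ring
    · rw [rp_im, rp_im]
      show 5 / 8 + (-1 / 4 + (1 / 4 - -1 / 4) * (cl (4 * t - 1) - cl (4 * t - 3))) + τ 2 - 5 / 8 = _
      ring
  · intro t ht
    have h1 : Φ (1, t) = Φ (1, 0) := by
      show wi ((1 - (1 : ℝ)) • f (loopPt τ t) + (1 : ℝ) • f (loopPt τ 0)) (H (1, t))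
        = wi ((1 - (1 : ℝ)) • f (loopPt τ 0) + (1 : ℝ) • f (loopPt τ 0)) (H (1, 0))
      rw [hH1 t ht, sub_self, zero_smul, zero_smul]
    show (⟨g (Φ (1, t)) 0 + 1, g (Φ (1, t)) 2 - 5 / 8⟩ : ℂ)
      = ⟨g (Φ (1, 0)) 0 + 1, g (Φ (1, 0)) 2 - 5 / 8⟩
    rw [h1]
  · intro s hs
    have h1 : Φ (s, 0) = Φ (s, 1) := by
      show wi ((1 - s) • f (loopPt τ 0) + s • f (loopPt τ 0)) (H (s, 0))
        = wi ((1 - s) • f (loopPt τ 1) + s • f (loopPt τ 0)) (H (s, 1))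
      rw [hHs s hs, hL01]
    show (⟨g (Φ (s, 0)) 0 + 1, g (Φ (s, 0)) 2 - 5 / 8⟩ : ℂ)
      = ⟨g (Φ (s, 1)) 0 + 1, g (Φ (s, 1)) 2 - 5 / 8⟩
    rw [h1]

end Pool.Agent.Run7.h888.SC
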